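import Pool.Agent.Lib.MP_c487e3_gt.Defs
import Pool.Agent.Lib.MP_c487e3_gt.CycMono

set_option autoImplicit false
set_option linter.unusedSectionVars false

/-!
# The interpolation map of a cyclically monotone set has a Lipschitz inverse
-/

open MeasureTheory Set Filter
open scoped ENNReal Topology NNReal

namespace MP_c487e3_gt

section general

variable {E : Type*} [NormedAddCommGroup E] [NormedSpace ℝ E] [FiniteDimensional ℝ E]

/-- The derivative of a `C²` function is Lipschitz on balls. -/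
theorem exists_lipschitz_fderiv {h : E → ℝ} (hC : ContDiff ℝ 2 h) (R : ℝ) :
    ∃ Λ : ℝ, 0 ≤ Λ ∧ ∀ x ∈ Metric.closedBall (0 : E) R, ∀ y ∈ Metric.closedBall (0 : E) R,
      ‖fderiv ℝ h x - fderiv ℝ h y‖ ≤ Λ * ‖x - y‖ := by
  have h1 : ContDiff ℝ 1 (fderiv ℝ h) := hC.fderiv_right (m := 1) (by norm_num)
  have h2 : Continuous (fderiv ℝ (fderiv ℝ h)) := h1.continuous_fderiv (by norm_num)
  have h3 : Continuous fun x => ‖fderiv ℝ (fderiv ℝ h) x‖ :=
    (continuous_norm (E := E →L[ℝ] E →L[ℝ] ℝ)).comp h2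
  obtain ⟨Λ, hΛ'⟩ := (isCompact_closedBall (0 : E) R).exists_bound_of_continuousOn
    h3.continuousOn
  have hΛ : ∀ x ∈ Metric.closedBall (0 : E) R, ‖fderiv ℝ (fderiv ℝ h) x‖ ≤ Λ := by
    intro x hx
    have h4 := hΛ' x hx
    rw [Real.norm_eq_abs] at h4
    exact (le_abs_self _).trans h4
  refine ⟨max Λ 0, le_max_right _ _, fun x hx y hy => ?_⟩
  refine (convex_closedBall (0 : E) R).norm_image_sub_le_of_norm_fderiv_le (𝕜 := ℝ)
    (fun z _ => (h1.differentiable (by norm_num)).differentiableAt)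
    (fun z hz => (hΛ z hz).trans (le_max_left _ _)) hy hx

/-- first order Taylor estimate -/
theorem taylor_le {h : E → ℝ} (hC : ContDiff ℝ 2 h) {R Λ : ℝ} (hΛ0 : 0 ≤ Λ)
    (hΛ : ∀ x ∈ Metric.closedBall (0 : E) R, ∀ y ∈ Metric.closedBall (0 : E) R,
      ‖fderiv ℝ h x - fderiv ℝ h y‖ ≤ Λ * ‖x - y‖)
    {b d : E} (hb : b ∈ Metric.closedBall (0 : E) R) (hbd : b + d ∈ Metric.closedBall (0 : E) R) :
    h (b + d) ≤ h b + fderiv ℝ h b d + Λ * ‖d‖ ^ 2 := by
  have hseg : segment ℝ b (b + d) ⊆ Metric.closedBall (0 : E) R :=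
    (convex_closedBall (0 : E) R).segment_subset hb hbd
  have h1 := (convex_segment (𝕜 := ℝ) b (b + d)).norm_image_sub_le_of_norm_fderiv_le' (𝕜 := ℝ)
    (f := h) (φ := fderiv ℝ h b) (C := Λ * ‖d‖)
    (fun z _ => (hC.differentiable (by norm_num)).differentiableAt)
    (fun z hz => ?_) (left_mem_segment ℝ b (b + d)) (right_mem_segment ℝ b (b + d))
  · rw [add_sub_cancel_left, Real.norm_eq_abs] at h1
    have := (abs_le.1 h1).2
    nlinarith
  · refine (hΛ z (hseg hz) b hb).trans ?_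
    refine mul_le_mul_of_nonneg_left ?_ hΛ0
    have h2 := norm_sub_le_of_mem_segment hz
    rw [add_sub_cancel_left] at h2
    exact h2

variable {h : E → ℝ} {lam : ℝ} {Γ : Set (E × E)} {t : ℝ}

/-- The basic estimate. -/
theorem struct_estimate (hC : ContDiff ℝ 2 h) (hlam : 0 < lam)
    (hconv : StrongConvexOn univ lam h) (hΓ : IsCompact Γ)
    (hcyc : CycMono (fun x y => h (x - y)) Γ) (ht : t ∈ Ioo (0 : ℝ) 1) :
    ∃ C : ℝ, 0 ≤ C ∧ ∀ p ∈ Γ, ∀ q ∈ Γ, ‖(p.1 - p.2) - (q.1 - q.2)‖ ≤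
      C * ‖((1 - t) • p.1 + t • p.2) - ((1 - t) • q.1 + t • q.2)‖ := by
  obtain ⟨ht0, ht1⟩ := ht
  obtain ⟨R, hR⟩ := hΓ.isBounded.exists_norm_le
  have hR1 : ∀ p ∈ Γ, ‖p.1‖ ≤ R := fun p hp => (norm_fst_le p).trans (hR p hp)
  have hR2 : ∀ p ∈ Γ, ‖p.2‖ ≤ R := fun p hp => (norm_snd_le p).trans (hR p hp)
  obtain ⟨Λ, hΛ0, hΛ⟩ := exists_lipschitz_fderiv hC (2 * R)
  set κ : ℝ := lam * (t * (1 - t)) with hκ
  have h1t : 0 < 1 - t := by linarith
  have hκ0 : 0 < κ := by positivity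
  refine ⟨1 + 3 * Λ / κ, by positivity, fun p hp q hq => ?_⟩
  set a : E := p.1 - p.2 with ha
  set a' : E := q.1 - q.2 with ha'
  set d : E := ((1 - t) • p.1 + t • p.2) - ((1 - t) • q.1 + t • q.2) with hd
  set b : E := t • a + (1 - t) • a' with hb
  set b' : E := (1 - t) • a + t • a' with hb'
  have e1 : p.1 - q.2 = b + d := by
    rw [hb, hd, ha, ha']
    module
  have e2 : q.1 - p.2 = b' - d := by
    rw [hb', hd, ha, ha']
    module
  have hball : ∀ x y : E, ‖x‖ ≤ R → ‖y‖ ≤ R → x - y ∈ Metric.closedBall (0 : E) (2 * R) := by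
    intro x y hx hy
    rw [mem_closedBall_zero_iff]
    exact (norm_sub_le _ _).trans (by linarith)
  have ha_mem : a ∈ Metric.closedBall (0 : E) (2 * R) := hball _ _ (hR1 p hp) (hR2 p hp)
  have ha'_mem : a' ∈ Metric.closedBall (0 : E) (2 * R) := hball _ _ (hR1 q hq) (hR2 q hq)
  have hb_mem : b ∈ Metric.closedBall (0 : E) (2 * R) :=
    (convex_closedBall (0 : E) (2 * R)) ha_mem ha'_mem ht0.le h1t.le (by ring)
  have hb'_mem : b' ∈ Metric.closedBall (0 : E) (2 * R) :=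
    (convex_closedBall (0 : E) (2 * R)) ha_mem ha'_mem h1t.le ht0.le (by ring)
  have hbd_mem : b + d ∈ Metric.closedBall (0 : E) (2 * R) := by
    rw [← e1]; exact hball _ _ (hR1 p hp) (hR2 q hq)
  have hb'd_mem : b' + -d ∈ Metric.closedBall (0 : E) (2 * R) := by
    rw [← sub_eq_add_neg, ← e2]; exact hball _ _ (hR1 q hq) (hR2 p hp)
  -- cyclical monotonicity
  have hc := hcyc 2 ![p, q] (Equiv.swap 0 1) (by
    intro i
    fin_cases i
    · exact hp
    · exact hq)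
  simp only [Fin.sum_univ_two, Matrix.cons_val_zero, Matrix.cons_val_one, Equiv.swap_apply_left,
    Equiv.swap_apply_right] at hc
  rw [e1, e2] at hc
  -- strong convexity
  have hs1 := hconv.2 (mem_univ a) (mem_univ a') ht0.le h1t.le (by ring)
  have hs2 := hconv.2 (mem_univ a) (mem_univ a') h1t.le ht0.le (by ring)
  simp only [smul_eq_mul] at hs1 hs2
  rw [← hb] at hs1
  rw [← hb'] at hs2
  -- Taylor
  have ht1' := taylor_le hC hΛ0 hΛ hb_mem hbd_mem
  have ht2' := taylor_le hC hΛ0 hΛ hb'_mem hb'd_mem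
  rw [← sub_eq_add_neg, map_neg, norm_neg] at ht2'
  have hDD : fderiv ℝ h b d - fderiv ℝ h b' d ≤ Λ * ‖a - a'‖ * ‖d‖ := by
    have h1 : fderiv ℝ h b d - fderiv ℝ h b' d = (fderiv ℝ h b - fderiv ℝ h b') d := rfl
    rw [h1]
    refine (le_abs_self _).trans ?_
    rw [← Real.norm_eq_abs]
    refine (ContinuousLinearMap.le_opNorm _ _).trans ?_
    refine mul_le_mul_of_nonneg_right ?_ (norm_nonneg _)
    refine (hΛ b hb_mem b' hb'_mem).trans ?_
    refine mul_le_mul_of_nonneg_left ?_ hΛ0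
    have h2 : b - b' = (2 * t - 1) • (a - a') := by
      rw [hb, hb']
      module
    rw [h2, norm_smul, Real.norm_eq_abs]
    have h3 : |2 * t - 1| ≤ 1 := by
      rw [abs_le]; constructor <;> linarith
    exact mul_le_of_le_one_left (norm_nonneg _) h3
  set r : ℝ := ‖a - a'‖ with hr
  set δ : ℝ := ‖d‖ with hδ
  have hr0 : 0 ≤ r := norm_nonneg _
  have hδ0 : 0 ≤ δ := norm_nonneg _
  have hmain : κ * r ^ 2 ≤ Λ * r * δ + 2 * Λ * δ ^ 2 := by
    rw [hκ]
    nlinarith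
  have h3Λ : 0 ≤ 3 * Λ / κ := by positivity
  by_contra hcon
  push Not at hcon
  have hlt : δ < r := by nlinarith
  have h5 : κ * r ^ 2 ≤ 3 * Λ * δ * r := by
    have : Λ * δ ^ 2 ≤ Λ * δ * r := by
      rw [pow_two, ← mul_assoc]
      exact mul_le_mul_of_nonneg_left hlt.le (by positivity)
    nlinarith
  have hrpos : 0 < r := lt_of_le_of_lt hδ0 hlt
  have h6 : κ * r ≤ 3 * Λ * δ := by
    have : r * (κ * r) ≤ r * (3 * Λ * δ) := by nlinarith
    exact le_of_mul_le_mul_left this hrpos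
  have h7 : r ≤ 3 * Λ / κ * δ := by
    rw [div_mul_eq_mul_div, le_div_iff₀ hκ0]
    linarith
  nlinarith

/-- On the set of the `(1-t)x + ty`, `(x,y) ∈ Γ`, the points `x` and `y` are Lipschitz functions;
they are extended to Lipschitz functions on the whole space. -/
theorem exists_lipschitz_inverse' (hC : ContDiff ℝ 2 h) (hlam : 0 < lam)
    (hconv : StrongConvexOn univ lam h) (hΓ : IsCompact Γ)
    (hcyc : CycMono (fun x y => h (x - y)) Γ) (ht : t ∈ Ioo (0 : ℝ) 1) :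
    ∃ (C : ℝ≥0) (X Y : E → E), LipschitzWith C X ∧ LipschitzWith C Y ∧
      ∀ p ∈ Γ, X ((1 - t) • p.1 + t • p.2) = p.1 ∧ Y ((1 - t) • p.1 + t • p.2) = p.2 := by
  classical
  obtain ⟨C, hC0, hest⟩ := struct_estimate hC hlam hconv hΓ hcyc ht
  obtain ⟨ht0, ht1⟩ := ht
  set z : E × E → E := fun p => (1 - t) • p.1 + t • p.2 with hz
  -- a section of `z`
  have hinj : ∀ p ∈ Γ, ∀ q ∈ Γ, z p = z q → p = q := by
    intro p hp q hq hpq
    have h1 := hest p hp q hq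
    have h2 : ((1 - t) • p.1 + t • p.2) - ((1 - t) • q.1 + t • q.2) = 0 := sub_eq_zero.2 hpq
    rw [h2, norm_zero, mul_zero] at h1
    have h3 : (p.1 - p.2) - (q.1 - q.2) = 0 := norm_le_zero_iff.1 h1
    have h4 : p.1 - q.1 = 0 := by
      have : p.1 - q.1 = (((1 - t) • p.1 + t • p.2) - ((1 - t) • q.1 + t • q.2)) +
          t • ((p.1 - p.2) - (q.1 - q.2)) := by module
      rw [this, h2, h3, smul_zero, add_zero]
    have h5 : p.2 - q.2 = 0 := by
      have : p.2 - q.2 = (((1 - t) • p.1 + t • p.2) - ((1 - t) • q.1 + t • q.2)) -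
          (1 - t) • ((p.1 - p.2) - (q.1 - q.2)) := by module
      rw [this, h2, h3, smul_zero, sub_zero]
    exact Prod.ext (sub_eq_zero.1 h4) (sub_eq_zero.1 h5)
  let s : E → E × E := fun w => if hw : ∃ p ∈ Γ, z p = w then hw.choose else 0
  have hs : ∀ p ∈ Γ, s (z p) = p := by
    intro p hp
    have hw : ∃ q ∈ Γ, z q = z p := ⟨p, hp, rfl⟩
    have h1 : s (z p) = hw.choose := dif_pos hw
    rw [h1]
    exact hinj _ hw.choose_spec.1 _ hp hw.choose_spec.2
  let C' : ℝ≥0 := ⟨1 + C, by positivity⟩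
  have hC' : (C' : ℝ) = 1 + C := rfl
  have hX : LipschitzOnWith C' (fun w => (s w).1) (z '' Γ) := by
    apply LipschitzOnWith.of_dist_le_mul
    rintro _ ⟨p, hp, rfl⟩ _ ⟨q, hq, rfl⟩
    change dist (s (z p)).1 (s (z q)).1 ≤ _
    rw [hs p hp, hs q hq, dist_eq_norm, dist_eq_norm, hC']
    have h1 := hest p hp q hq
    have h2 : p.1 - q.1 = (((1 - t) • p.1 + t • p.2) - ((1 - t) • q.1 + t • q.2)) +
        t • ((p.1 - p.2) - (q.1 - q.2)) := by module
    rw [h2]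
    refine (norm_add_le _ _).trans ?_
    rw [norm_smul, Real.norm_eq_abs, abs_of_pos ht0]
    change _ ≤ (1 + C) * ‖((1 - t) • p.1 + t • p.2) - ((1 - t) • q.1 + t • q.2)‖
    have h3 : t * ‖(p.1 - p.2) - (q.1 - q.2)‖ ≤ 1 * ‖(p.1 - p.2) - (q.1 - q.2)‖ :=
      mul_le_mul_of_nonneg_right ht1.le (norm_nonneg _)
    linarith
  have hY : LipschitzOnWith C' (fun w => (s w).2) (z '' Γ) := by
    apply LipschitzOnWith.of_dist_le_mul
    rintro _ ⟨p, hp, rfl⟩ _ ⟨q, hq, rfl⟩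
    change dist (s (z p)).2 (s (z q)).2 ≤ _
    rw [hs p hp, hs q hq, dist_eq_norm, dist_eq_norm, hC']
    have h1 := hest p hp q hq
    have h2 : p.2 - q.2 = (((1 - t) • p.1 + t • p.2) - ((1 - t) • q.1 + t • q.2)) -
        (1 - t) • ((p.1 - p.2) - (q.1 - q.2)) := by module
    rw [h2]
    refine (norm_sub_le _ _).trans ?_
    rw [norm_smul, Real.norm_eq_abs, abs_of_pos (by linarith : (0:ℝ) < 1 - t)]
    change _ ≤ (1 + C) * ‖((1 - t) • p.1 + t • p.2) - ((1 - t) • q.1 + t • q.2)‖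
    have h3 : (1 - t) * ‖(p.1 - p.2) - (q.1 - q.2)‖ ≤ 1 * ‖(p.1 - p.2) - (q.1 - q.2)‖ :=
      mul_le_mul_of_nonneg_right (by linarith) (norm_nonneg _)
    linarith
  obtain ⟨X, hXL, hXe⟩ := hX.extend_finite_dimension
  obtain ⟨Y, hYL, hYe⟩ := hY.extend_finite_dimension
  refine ⟨_, X, Y, hXL, hYL, fun p hp => ⟨?_, ?_⟩⟩
  · have h1 := hXe ⟨p, hp, rfl⟩
    change (s (z p)).1 = X (z p) at h1
    rw [hs p hp] at h1
    exact h1.symm
  · have h1 := hYe ⟨p, hp, rfl⟩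
    change (s (z p)).2 = Y (z p) at h1
    rw [hs p hp] at h1
    exact h1.symm

end general

theorem exists_lipschitz_inverse {h : E3 → ℝ} (hC : ContDiff ℝ 2 h) {lam : ℝ} (hlam : 0 < lam)
    (hconv : StrongConvexOn univ lam h) {Γ : Set (E3 × E3)} (hΓ : IsCompact Γ)
    (hcyc : CycMono (fun x y => h (x - y)) Γ) {t : ℝ} (ht : t ∈ Ioo (0 : ℝ) 1) :
    ∃ (C : ℝ≥0) (X Y : E3 → E3), LipschitzWith C X ∧ LipschitzWith C Y ∧
      ∀ p ∈ Γ, X ((1 - t) • p.1 + t • p.2) = p.1 ∧ Y ((1 - t) • p.1 + t • p.2) = p.2 :=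
  exists_lipschitz_inverse' hC hlam hconv hΓ hcyc ht

end MP_c487e3_gt
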