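import Pool.Agent.Lib.MP_c487e3_gt.H93.Exists

set_option autoImplicit false

/-!
# Limits of optimal plans
-/

open MeasureTheory Set Filter
open scoped ENNReal Topology BoundedContinuousFunction

namespace MP_c487e3_gt

variable {E : Type*} [MetricSpace E] [SecondCountableTopology E] [MeasurableSpace E]
  [BorelSpace E]

/-- Optimal plans for costs `ck k`, which converge to `c` uniformly on `K × K`, converge along a
subsequence to an optimal plan for `c`. -/
theorem exists_limit_optimal (c : E → E → ℝ) (hc : Continuous (fun p : E × E => c p.1 p.2))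
    (ck : ℕ → E → E → ℝ) (hck : ∀ k, Continuous (fun p : E × E => ck k p.1 p.2))
    {K : Set E} (hK : IsCompact K)
    (hconv : ∀ ε : ℝ, 0 < ε → ∀ᶠ k in atTop, ∀ x ∈ K, ∀ y ∈ K, |ck k x y - c x y| ≤ ε)
    (μ ν : Measure E) [IsProbabilityMeasure μ] [IsProbabilityMeasure ν]
    (hμ : μ Kᶜ = 0) (hν : ν Kᶜ = 0) (π : ℕ → ProbabilityMeasure (E × E))
    (hπ : ∀ k, IsCoupling (π k : Measure (E × E)) μ ν)
    (hopt : ∀ k, ∀ π' : Measure (E × E), IsCoupling π' μ ν →
      ∫ p, ck k p.1 p.2 ∂(π k : Measure (E × E)) ≤ ∫ p, ck k p.1 p.2 ∂π') :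
    ∃ (πl : ProbabilityMeasure (E × E)) (φ : ℕ → ℕ), StrictMono φ ∧
      Tendsto (fun k => π (φ k)) atTop (𝓝 πl) ∧ IsCoupling (πl : Measure (E × E)) μ ν ∧
      ∀ π' : Measure (E × E), IsCoupling π' μ ν →
        ∫ p, c p.1 p.2 ∂(πl : Measure (E × E)) ≤ ∫ p, c p.1 p.2 ∂π' := by
  obtain ⟨πl, hmem, φ, hφ, hlim⟩ := (isCompact_couplings hK μ ν hμ hν).tendsto_subseq
    (x := π) (fun k => hπ k)
  refine ⟨πl, φ, hφ, hlim, hmem, fun π' hπ' => ?_⟩
  have hp' : IsProbabilityMeasure π' := hπ'.isProbabilityMeasure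
  have hKK : IsCompact (K ×ˢ K) := hK.prod hK
  obtain ⟨g, hg⟩ := exists_trunc _ hc hKK
  have hgint : ∀ π : Measure (E × E), IsCoupling π μ ν →
      ∫ p, g p ∂π = ∫ p, c p.1 p.2 ∂π := by
    intro π hπ
    apply integral_congr_ae
    have h1 : ∀ᵐ p ∂π, p ∈ K ×ˢ K := by
      rw [ae_iff]; exact hπ.compl_null hK.measurableSet hμ hν
    filter_upwards [h1] with p hp
    exact hg p hp
  have hcoup : IsCoupling (πl : Measure (E × E)) μ ν := hmem
  -- the integrals of `c` converge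
  have h2 : Tendsto (fun k => ∫ p, c p.1 p.2 ∂(π (φ k) : Measure (E × E))) atTop
      (𝓝 (∫ p, c p.1 p.2 ∂(πl : Measure (E × E)))) := by
    have h3 := (ProbabilityMeasure.tendsto_iff_forall_integral_tendsto.1 hlim) g
    rw [hgint _ hcoup] at h3
    refine h3.congr fun k => ?_
    exact hgint _ (hπ (φ k))
  -- comparison
  have hdiff : ∀ ε : ℝ, 0 < ε → ∀ᶠ k in atTop, ∀ ρ : Measure (E × E), IsCoupling ρ μ ν →
      |∫ p, ck k p.1 p.2 ∂ρ - ∫ p, c p.1 p.2 ∂ρ| ≤ ε := by
    intro ε hε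
    filter_upwards [hconv ε hε] with k hk ρ hρ
    have hpρ : IsProbabilityMeasure ρ := hρ.isProbabilityMeasure
    have hρK := hρ.compl_null hK.measurableSet hμ hν
    have i1 : Integrable (fun p : E × E => ck k p.1 p.2) ρ :=
      integrable_of_compact (hck k) hKK ρ hρK
    have i2 : Integrable (fun p : E × E => c p.1 p.2) ρ :=
      integrable_of_compact hc hKK ρ hρK
    rw [← integral_sub i1 i2, ← Real.norm_eq_abs]
    refine (norm_integral_le_of_norm_le_const (C := ε) ?_).trans (by simp)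
    have h1 : ∀ᵐ p ∂ρ, p ∈ K ×ˢ K := by
      rw [ae_iff]; exact hρK
    filter_upwards [h1] with p hp
    rw [Real.norm_eq_abs]
    exact hk _ hp.1 _ hp.2
  refine le_of_forall_pos_le_add fun ε hε => ?_
  have hε2 : 0 < ε / 2 := by positivity
  refine le_of_tendsto h2 ?_
  have h5 := hφ.tendsto_atTop.eventually (hdiff (ε / 2) hε2)
  filter_upwards [h5] with k hk
  have e1 := abs_le.1 (hk _ (hπ (φ k)))
  have e2 := abs_le.1 (hk _ hπ')
  have e3 := hopt (φ k) π' hπ'
  linarith [e1.1, e1.2, e2.1, e2.2]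

end MP_c487e3_gt
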