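import Mathlib

set_option autoImplicit false

/-!
# Optimal transport plans for a continuous cost

Existence of optimal plans between compactly supported probability measures, and cyclical
monotonicity of the support of an optimal plan.
-/

open MeasureTheory Set Filter Topology

namespace Pool.Agent.Lib.MP_c487e3_gt.H93

variable {X Y : Type*} [MetricSpace X] [MeasurableSpace X] [BorelSpace X]
  [SecondCountableTopology X] [MetricSpace Y] [MeasurableSpace Y] [BorelSpace Y]
  [SecondCountableTopology Y]

theorem map_add_sum {E Z : Type*} [MeasurableSpace E] [MeasurableSpace Z] {n : ℕ}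
    (g : E → Z) (hg : Measurable g) (π₀ : Measure E) (ε : ENNReal) (Q : Fin n → Measure E) :
    (π₀ + ∑ i, ε • Q i).map g = π₀.map g + ∑ i, ε • (Q i).map g := by
  rw [Measure.map_add _ _ hg]
  congr 1
  have : ∀ s : Finset (Fin n), (∑ i ∈ s, ε • Q i).map g = ∑ i ∈ s, ε • (Q i).map g := by
    classical
    intro s
    induction s using Finset.induction_on with
    | empty => simp
    | insert a s ha ih =>
      rw [Finset.sum_insert ha, Finset.sum_insert ha, Measure.map_add _ _ hg, ih,
        Measure.map_smul]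
  exact this _

section cyclic

variable {π : Measure (X × Y)} [IsFiniteMeasure π] {c : X × Y → ℝ}

/-- **Cyclical monotonicity.** If `π` is an optimal plan for the continuous cost `c`, then its
support is `c`-cyclically monotone. -/
theorem cyclic_monotone (hc : Continuous c) (hint : Integrable c π)
    (hmin : ∀ π' : Measure (X × Y), π'.map Prod.fst = π.map Prod.fst →
      π'.map Prod.snd = π.map Prod.snd → Integrable c π' → ∫ z, c z ∂π ≤ ∫ z, c z ∂π')
    {n : ℕ} (z : Fin n → X × Y) (hz : ∀ i, z i ∈ π.support) (σ : Equiv.Perm (Fin n)) :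
    ∑ i, c (z i) ≤ ∑ i, c ((z i).1, (z (σ i)).2) := by
  classical
  by_contra hcon
  push Not at hcon
  set D : ℝ := ∑ i, c (z i) - ∑ i, c ((z i).1, (z (σ i)).2) with hD
  have hD0 : 0 < D := by rw [hD]; linarith
  have hn : 0 < n := by
    rcases Nat.eq_zero_or_pos n with h | h
    · subst h
      simp at hcon
    · exact h
  have hn' : (0 : ℝ) < n := by exact_mod_cast hn
  set δ : ℝ := D / (4 * n) with hδ
  have hδ0 : 0 < δ := by positivity
  -- a common radius
  obtain ⟨r, hr0, hr⟩ : ∃ r : ℝ, 0 < r ∧ ∀ i j : Fin n, ∀ p : X × Y,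
      dist p ((z i).1, (z j).2) < r → |c p - c ((z i).1, (z j).2)| < δ := by
    have h1 : ∀ i j : Fin n, ∀ᶠ r : ℝ in 𝓝[>] 0, ∀ p : X × Y,
        dist p ((z i).1, (z j).2) < r → |c p - c ((z i).1, (z j).2)| < δ := by
      intro i j
      obtain ⟨r, hr0, hr⟩ := Metric.continuous_iff.1 hc ((z i).1, (z j).2) δ hδ0
      have : Ioo (0 : ℝ) r ∈ 𝓝[>] (0 : ℝ) := Ioo_mem_nhdsGT hr0
      filter_upwards [this] with s hs p hp
      rw [← Real.dist_eq]
      exact hr p (hp.trans hs.2)
    have h2 : ∀ᶠ r : ℝ in 𝓝[>] 0, ∀ i j : Fin n, ∀ p : X × Y,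
        dist p ((z i).1, (z j).2) < r → |c p - c ((z i).1, (z j).2)| < δ := by
      rw [eventually_all]
      intro i
      rw [eventually_all]
      exact h1 i
    obtain ⟨r, hr, hr0⟩ := (h2.and self_mem_nhdsWithin).exists
    exact ⟨r, hr0, hr⟩
  set A : Fin n → Set (X × Y) := fun i => Metric.ball (z i) r with hA
  have hAm : ∀ i, MeasurableSet (A i) := fun i => Metric.isOpen_ball.measurableSet
  have hpos : ∀ i, 0 < π (A i) := fun i =>
    (Measure.mem_support_iff_forall _).1 (hz i) _ (Metric.ball_mem_nhds _ hr0)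
  have htop : ∀ i, π (A i) ≠ ⊤ := fun i => measure_ne_top _ _
  set P : Fin n → Measure (X × Y) := fun i => (π (A i))⁻¹ • π.restrict (A i) with hP
  have hPp : ∀ i, IsProbabilityMeasure (P i) := by
    intro i
    refine ⟨?_⟩
    rw [hP]
    simp only [Measure.smul_apply, Measure.restrict_apply MeasurableSet.univ, univ_inter,
      smul_eq_mul]
    exact ENNReal.inv_mul_cancel (hpos i).ne' (htop i)
  set η : Measure (Fin n → X × Y) := Measure.pi P with hη
  have hηp : IsProbabilityMeasure η := by rw [hη]; infer_instance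
  have hev : ∀ i, η.map (fun w => w i) = P i := by
    intro i
    have h1 := Measure.pi_map_eval (μ := P) i
    rw [hη]
    refine h1.trans ?_
    have h2 : ∏ j ∈ Finset.univ.erase i, P j univ = 1 :=
      Finset.prod_eq_one fun j _ => measure_univ
    rw [h2, one_smul]
  have hmev : ∀ i, Measurable (fun w : Fin n → X × Y => w i) := fun i => measurable_pi_apply i
  have hAev : ∀ᵐ w ∂η, ∀ i, w i ∈ A i := by
    rw [ae_all_iff]
    intro i
    have h1 : ∀ᵐ p ∂(P i), p ∈ A i := by
      rw [hP]
      apply Measure.ae_smul_measure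
      exact ae_restrict_mem (hAm i)
    rw [← hev i] at h1
    exact ae_of_ae_map (hmev i).aemeasurable h1
  set f : Fin n → (Fin n → X × Y) → X × Y := fun i w => ((w i).1, (w (σ i)).2) with hf
  have hfm : ∀ i, Measurable (f i) := by
    intro i
    exact ((measurable_fst.comp (hmev i))).prodMk (measurable_snd.comp (hmev (σ i)))
  -- the mass
  set S : ENNReal := ∑ i, (π (A i))⁻¹ with hS
  have hStop : S ≠ ⊤ := by
    rw [hS]
    refine (ENNReal.sum_lt_top.2 fun i _ => ?_).ne
    exact ENNReal.inv_lt_top.2 (hpos i)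
  have hS0 : S ≠ 0 := by
    rw [hS]
    intro h
    have h1 := (Finset.sum_eq_zero_iff.1 h) ⟨0, hn⟩ (Finset.mem_univ _)
    exact ENNReal.inv_ne_zero.2 (htop _) h1
  set ε : ENNReal := S⁻¹ with hε
  have hε0 : ε ≠ 0 := ENNReal.inv_ne_zero.2 hStop
  have hεt : ε ≠ ⊤ := ENNReal.inv_ne_top.2 hS0
  set φ : X × Y → ENNReal := fun p => ∑ i, ε * (π (A i))⁻¹ * (A i).indicator 1 p with hφ
  have hφ1 : ∀ p, φ p ≤ 1 := by
    intro p
    calc φ p ≤ ∑ i, ε * (π (A i))⁻¹ := by
          refine Finset.sum_le_sum fun i _ => ?_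
          calc ε * (π (A i))⁻¹ * (A i).indicator 1 p ≤ ε * (π (A i))⁻¹ * 1 := by
                gcongr
                exact indicator_le_self' (fun _ _ => zero_le_one) p
            _ = _ := mul_one _
      _ = ε * S := by rw [hS, Finset.mul_sum]
      _ = 1 := ENNReal.inv_mul_cancel hS0 hStop
  have hφm : Measurable φ := by
    refine Finset.measurable_fun_sum _ fun i _ => ?_
    exact (measurable_one.indicator (hAm i)).const_mul _
  set π₀ : Measure (X × Y) := π.withDensity (fun p => 1 - φ p) with hπ₀
  have hdec : π = π₀ + ∑ i, ε • P i := by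
    have h1 : ∑ i, ε • P i = π.withDensity φ := by
      have h2 : ∀ i, ε • P i = π.withDensity (fun p => ε * (π (A i))⁻¹ * (A i).indicator 1 p) := by
        intro i
        rw [hP]
        have h3 : (fun p => ε * (π (A i))⁻¹ * (A i).indicator 1 p) =
            (ε * (π (A i))⁻¹) • ((A i).indicator (1 : X × Y → ENNReal)) := by
          funext p
          simp only [Pi.smul_apply, smul_eq_mul]
        rw [h3, withDensity_smul _ (measurable_one.indicator (hAm i)),
          withDensity_indicator (hAm i), withDensity_one, smul_smul]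
      rw [hφ]
      have h4 : π.withDensity (fun p => ∑ i, ε * (π (A i))⁻¹ * (A i).indicator 1 p) =
          ∑ i, π.withDensity (fun p => ε * (π (A i))⁻¹ * (A i).indicator 1 p) := by
        have : ∀ s : Finset (Fin n),
            π.withDensity (fun p => ∑ i ∈ s, ε * (π (A i))⁻¹ * (A i).indicator 1 p) =
            ∑ i ∈ s, π.withDensity (fun p => ε * (π (A i))⁻¹ * (A i).indicator 1 p) := by
          intro s
          induction s using Finset.induction_on with
          | empty => simp
          | insert a s ha ih =>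
            rw [Finset.sum_insert ha, ← ih]
            simp_rw [Finset.sum_insert ha]
            have := withDensity_add_left (μ := π)
              (f := fun p => ε * (π (A a))⁻¹ * (A a).indicator 1 p)
              ((measurable_one.indicator (hAm a)).const_mul _)
              (fun p => ∑ i ∈ s, ε * (π (A i))⁻¹ * (A i).indicator 1 p)
            exact this
        exact this _
      rw [h4]
      exact Finset.sum_congr rfl fun i _ => h2 i
    have h5 : ((fun p => 1 - φ p) + φ : X × Y → ENNReal) = 1 := by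
      funext p
      exact tsub_add_cancel_of_le (hφ1 p)
    have h6 := withDensity_add_left (μ := π) (f := fun p => 1 - φ p)
      (measurable_const.sub hφm) φ
    rw [h5, withDensity_one] at h6
    rw [h1]
    exact h6
  have hπ₀le : π₀ ≤ π := by
    conv_rhs => rw [hdec]
    exact Measure.le_add_right le_rfl
  have hPle : ∀ i, Integrable c (P i) := by
    intro i
    rw [hP]
    exact (hint.restrict).smul_measure (ENNReal.inv_ne_top.2 (hpos i).ne')
  have hint₀ : Integrable c π₀ := hint.mono_measure hπ₀le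
  -- the new plan
  set π' : Measure (X × Y) := π₀ + ∑ i, ε • η.map (f i) with hπ'
  have hfst : π'.map Prod.fst = π.map Prod.fst := by
    conv_rhs => rw [hdec]
    rw [hπ', map_add_sum _ measurable_fst, map_add_sum _ measurable_fst]
    congr 1
    refine Finset.sum_congr rfl fun i _ => ?_
    rw [← hev i, Measure.map_map measurable_fst (hfm i),
      Measure.map_map measurable_fst (hmev i)]
    rfl
  have hsnd : π'.map Prod.snd = π.map Prod.snd := by
    conv_rhs => rw [hdec]
    rw [hπ', map_add_sum _ measurable_snd, map_add_sum _ measurable_snd]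
    congr 1
    rw [← Equiv.sum_comp σ (fun i => ε • (P i).map Prod.snd)]
    refine Finset.sum_congr rfl fun i _ => ?_
    rw [← hev (σ i), Measure.map_map measurable_snd (hfm i),
      Measure.map_map measurable_snd (hmev (σ i))]
    rfl
  -- bounds
  have hb1 : ∀ i, ∀ᵐ w ∂η, |c (f i w) - c ((z i).1, (z (σ i)).2)| < δ := by
    intro i
    filter_upwards [hAev] with w hw
    apply hr
    have h1 := hw i
    have h2 := hw (σ i)
    simp only [hA, Metric.mem_ball, Prod.dist_eq, max_lt_iff] at h1 h2
    rw [hf, Prod.dist_eq, max_lt_iff]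
    exact ⟨h1.1, h2.2⟩
  have hb2 : ∀ i, ∀ᵐ p ∂(P i), |c p - c (z i)| < δ := by
    intro i
    have h1 : ∀ᵐ p ∂(P i), p ∈ A i := by
      rw [hP]
      apply Measure.ae_smul_measure
      exact ae_restrict_mem (hAm i)
    filter_upwards [h1] with p hp
    exact hr i i p hp
  have hfint : ∀ i, Integrable (fun w => c (f i w)) η := by
    intro i
    refine Integrable.of_bound ((hc.measurable.comp (hfm i)).aestronglyMeasurable)
      (|c ((z i).1, (z (σ i)).2)| + δ) ?_
    filter_upwards [hb1 i] with w hw
    rw [Real.norm_eq_abs]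
    have := abs_sub_abs_le_abs_sub (c (f i w)) (c ((z i).1, (z (σ i)).2))
    linarith
  have hfint' : ∀ i, Integrable c (η.map (f i)) := by
    intro i
    rw [integrable_map_measure hc.aestronglyMeasurable (hfm i).aemeasurable]
    exact hfint i
  have hsumint : ∀ Q : Fin n → Measure (X × Y), (∀ i, Integrable c (Q i)) →
      Integrable c (∑ i, ε • Q i) := by
    intro Q hQ
    rw [integrable_finsetSum_measure]
    intro i _
    exact (hQ i).smul_measure hεt
  have hsumeq : ∀ Q : Fin n → Measure (X × Y), (∀ i, Integrable c (Q i)) →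
      ∫ p, c p ∂(π₀ + ∑ i, ε • Q i) = ∫ p, c p ∂π₀ + ε.toReal * ∑ i, ∫ p, c p ∂(Q i) := by
    intro Q hQ
    rw [integral_add_measure hint₀ (hsumint Q hQ),
      integral_finsetSum_measure (fun i _ => (hQ i).smul_measure hεt), Finset.mul_sum]
    congr 1
    refine Finset.sum_congr rfl fun i _ => ?_
    rw [integral_smul_measure]
    rfl
  have hπ'int : Integrable c π' := hint₀.add_measure (hsumint _ hfint')
  have hle := hmin π' hfst hsnd hπ'int
  have e1 : ∫ p, c p ∂π = ∫ p, c p ∂π₀ + ε.toReal * ∑ i, ∫ p, c p ∂(P i) := by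
    conv_lhs => rw [hdec]
    exact hsumeq P hPle
  have e2 : ∫ p, c p ∂π' = ∫ p, c p ∂π₀ + ε.toReal * ∑ i, ∫ p, c p ∂(η.map (f i)) :=
    hsumeq _ hfint'
  rw [e1, e2] at hle
  have hεr : 0 < ε.toReal := ENNReal.toReal_pos hε0 hεt
  have h3 : ∑ i, ∫ p, c p ∂(P i) ≤ ∑ i, ∫ p, c p ∂(η.map (f i)) := by
    have : ε.toReal * ∑ i, ∫ p, c p ∂(P i) ≤ ε.toReal * ∑ i, ∫ p, c p ∂(η.map (f i)) := by
      linarith
    exact le_of_mul_le_mul_left this hεr
  have h4 : ∀ i, c (z i) - δ ≤ ∫ p, c p ∂(P i) := by
    intro i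
    have h5 : ∫ _, (c (z i) - δ) ∂(P i) ≤ ∫ p, c p ∂(P i) := by
      refine integral_mono_ae (integrable_const _) (hPle i) ?_
      filter_upwards [hb2 i] with p hp
      have := (abs_lt.1 hp).1
      show c (z i) - δ ≤ c p
      linarith
    simpa using h5
  have h6 : ∀ i, ∫ p, c p ∂(η.map (f i)) ≤ c ((z i).1, (z (σ i)).2) + δ := by
    intro i
    rw [integral_map (hfm i).aemeasurable hc.aestronglyMeasurable]
    have h5 : ∫ w, c (f i w) ∂η ≤ ∫ _, (c ((z i).1, (z (σ i)).2) + δ) ∂η := by
      refine integral_mono_ae (hfint i) (integrable_const _) ?_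
      filter_upwards [hb1 i] with w hw
      have := (abs_lt.1 hw).2
      show c (f i w) ≤ c ((z i).1, (z (σ i)).2) + δ
      linarith
    simpa using h5
  have h7 : ∑ i, (c (z i) - δ) ≤ ∑ i : Fin n, (c ((z i).1, (z (σ i)).2) + δ) :=
    ((Finset.sum_le_sum fun i _ => h4 i).trans h3).trans (Finset.sum_le_sum fun i _ => h6 i)
  rw [Finset.sum_sub_distrib, Finset.sum_add_distrib] at h7
  simp only [Finset.sum_const, Finset.card_univ, Fintype.card_fin, nsmul_eq_mul] at h7
  have h8 : (n : ℝ) * δ = D / 4 := by
    rw [hδ]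
    field_simp
  rw [h8] at h7
  linarith

end cyclic

end Pool.Agent.Lib.MP_c487e3_gt.H93
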