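import Pool.Agent.Lib.MP_c487e3_gt.Defs
import Pool.Agent.Lib.MP_c487e3_gt.CycMono
import Pool.Agent.Lib.MP_c487e3_gt.H93.Plans

set_option autoImplicit false

/-!
# Existence of optimal plans between compactly supported measures
-/

open MeasureTheory Set Filter
open scoped ENNReal Topology BoundedContinuousFunction

namespace MP_c487e3_gt

variable {E : Type*} [MetricSpace E] [SecondCountableTopology E] [MeasurableSpace E]
  [BorelSpace E]

/-- A coupling of measures concentrated on `K` is concentrated on `K × K`. -/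
theorem IsCoupling.compl_null {π : Measure (E × E)} {μ ν : Measure E} (h : IsCoupling π μ ν)
    {K : Set E} (hK : MeasurableSet K) (hμ : μ Kᶜ = 0) (hν : ν Kᶜ = 0) : π (K ×ˢ K)ᶜ = 0 := by
  have h1 : π (Prod.fst ⁻¹' Kᶜ) = 0 := by
    rw [← Measure.map_apply measurable_fst hK.compl, h.1, hμ]
  have h2 : π (Prod.snd ⁻¹' Kᶜ) = 0 := by
    rw [← Measure.map_apply measurable_snd hK.compl, h.2, hν]
  refine measure_mono_null ?_ (measure_union_null h1 h2)
  intro p hp
  rw [mem_compl_iff, mem_prod, not_and_or] at hp
  exact hp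

/-- A coupling of probability measures is a probability measure. -/
theorem IsCoupling.isProbabilityMeasure {π : Measure (E × E)} {μ ν : Measure E}
    (h : IsCoupling π μ ν) [IsProbabilityMeasure μ] : IsProbabilityMeasure π := by
  refine ⟨?_⟩
  have h1 : π univ = μ univ := by
    rw [← h.1, Measure.map_apply measurable_fst MeasurableSet.univ, preimage_univ]
  rw [h1, measure_univ]

/-- a continuous function is integrable for a finite measure concentrated on a compact set -/
theorem integrable_of_compact {F : Type*} [MetricSpace F] [MeasurableSpace F] [BorelSpace F]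
    {f : F → ℝ} (hf : Continuous f) {K : Set F} (hK : IsCompact K)
    (π : Measure F) [IsFiniteMeasure π] (hπ : π Kᶜ = 0) : Integrable f π := by
  have h1 : π.restrict K = π := Measure.restrict_eq_self_of_ae_mem (by
    rw [ae_iff]; exact hπ)
  rw [← h1]
  exact hf.continuousOn.integrableOn_compact hK

/-- the truncation of a continuous function -/
noncomputable def trunc {F : Type*} [TopologicalSpace F] (f : F → ℝ) (hf : Continuous f) (B : ℝ) :
    F →ᵇ ℝ :=
  BoundedContinuousFunction.ofNormedAddCommGroup (fun x => max (-|B|) (min |B| (f x)))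
    (by fun_prop) |B| (by
      intro x
      rw [Real.norm_eq_abs, abs_le]
      refine ⟨le_max_left _ _, max_le ?_ (min_le_left _ _)⟩
      have := abs_nonneg B
      linarith)

theorem trunc_apply {F : Type*} [TopologicalSpace F] (f : F → ℝ) (hf : Continuous f) {B : ℝ}
    {x : F} (hx : |f x| ≤ B) : trunc f hf B x = f x := by
  have hB : |B| = B := abs_of_nonneg ((abs_nonneg _).trans hx)
  change max (-|B|) (min |B| (f x)) = f x
  rw [hB, min_eq_right (abs_le.1 hx).2, max_eq_right (abs_le.1 hx).1]

/-- on a compact set a continuous function agrees with a bounded continuous function -/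
theorem exists_trunc {F : Type*} [TopologicalSpace F] (f : F → ℝ) (hf : Continuous f)
    {K : Set F} (hK : IsCompact K) : ∃ g : F →ᵇ ℝ, ∀ x ∈ K, g x = f x := by
  obtain ⟨B, hB⟩ := hK.exists_bound_of_continuousOn hf.continuousOn
  exact ⟨trunc f hf B, fun x hx => trunc_apply f hf (hB x hx)⟩

/-- The couplings of two probability measures concentrated on a compact set form a compact set. -/
theorem isCompact_couplings {K : Set E} (hK : IsCompact K) (μ ν : Measure E)
    [IsProbabilityMeasure μ] [IsProbabilityMeasure ν] (hμ : μ Kᶜ = 0) (hν : ν Kᶜ = 0) :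
    IsCompact {π : ProbabilityMeasure (E × E) | IsCoupling (π : Measure (E × E)) μ ν} := by
  have hKK : IsCompact (K ×ˢ K) := hK.prod hK
  have h1 : IsCompact {π : ProbabilityMeasure (E × E) | ∀ n : ℕ, π (K ×ˢ K)ᶜ ≤ (0 : NNReal)} := by
    have := isCompact_setOfPred_probabilityMeasure_mass_eq_compl_isCompact_le
      (E := E × E) (u := fun _ => 0) (K := fun _ => K ×ˢ K) tendsto_const_nhds (fun _ => hKK)
      (Or.inl inferInstance)
    exact this
  have h2 : {π : ProbabilityMeasure (E × E) | IsCoupling (π : Measure (E × E)) μ ν} =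
      {π : ProbabilityMeasure (E × E) | ∀ n : ℕ, π (K ×ˢ K)ᶜ ≤ (0 : NNReal)} ∩
      {π | π.map (measurable_fst (α := E) (β := E)).aemeasurable = ⟨μ, inferInstance⟩ ∧
        π.map (measurable_snd (α := E) (β := E)).aemeasurable = ⟨ν, inferInstance⟩} := by
    ext π
    constructor
    · intro h
      have h : IsCoupling (π : Measure (E × E)) μ ν := h
      refine ⟨fun _ => ?_, ?_, ?_⟩
      · have h3 := h.compl_null hK.measurableSet hμ hν
        rw [← ProbabilityMeasure.null_iff_toMeasure_null] at h3
        exact h3.le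
      · apply Subtype.ext
        exact h.1
      · apply Subtype.ext
        exact h.2
    · rintro ⟨_, h3, h4⟩
      exact ⟨congrArg Subtype.val h3, congrArg Subtype.val h4⟩
  rw [h2]
  apply h1.inter_right
  refine IsClosed.inter ?_ ?_
  · exact isClosed_eq (ProbabilityMeasure.continuous_map continuous_fst) continuous_const
  · exact isClosed_eq (ProbabilityMeasure.continuous_map continuous_snd) continuous_const

/-- **Existence of optimal plans**, with cyclically monotone compact support. -/
theorem exists_optimal (c : E → E → ℝ) (hc : Continuous (fun p : E × E => c p.1 p.2))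
    {K : Set E} (hK : IsCompact K) (μ ν : Measure E) [IsProbabilityMeasure μ]
    [IsProbabilityMeasure ν] (hμ : μ Kᶜ = 0) (hν : ν Kᶜ = 0) :
    ∃ π : Measure (E × E), IsCoupling π μ ν ∧
      (∀ π' : Measure (E × E), IsCoupling π' μ ν →
        ∫ p, c p.1 p.2 ∂π ≤ ∫ p, c p.1 p.2 ∂π') ∧
      ∃ Γ : Set (E × E), IsCompact Γ ∧ Γ ⊆ K ×ˢ K ∧ π Γᶜ = 0 ∧ CycMono c Γ := by
  have hKK : IsCompact (K ×ˢ K) := hK.prod hK
  obtain ⟨g, hg⟩ := exists_trunc _ hc hKK
  have hgint : ∀ π : Measure (E × E), IsCoupling π μ ν →
      ∫ p, g p ∂π = ∫ p, c p.1 p.2 ∂π := by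
    intro π hπ
    apply integral_congr_ae
    have h1 : ∀ᵐ p ∂π, p ∈ K ×ˢ K := by
      rw [ae_iff]; exact hπ.compl_null hK.measurableSet hμ hν
    filter_upwards [h1] with p hp
    exact hg p hp
  have hprod : IsCoupling (μ.prod ν) μ ν := by
    constructor
    · rw [Measure.map_fst_prod, measure_univ, one_smul]
    · rw [Measure.map_snd_prod, measure_univ, one_smul]
  obtain ⟨π, hπ, hmin⟩ := (isCompact_couplings hK μ ν hμ hν).exists_isMinOn
    (f := fun π : ProbabilityMeasure (E × E) => ∫ p, g p ∂(π : Measure (E × E)))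
    ⟨⟨μ.prod ν, inferInstance⟩, hprod⟩
    (ProbabilityMeasure.continuous_integral_boundedContinuousFunction g).continuousOn
  have hπ : IsCoupling (π : Measure (E × E)) μ ν := hπ
  have hopt : ∀ π' : Measure (E × E), IsCoupling π' μ ν →
      ∫ p, c p.1 p.2 ∂(π : Measure (E × E)) ≤ ∫ p, c p.1 p.2 ∂π' := by
    intro π' hπ'
    have hp : IsProbabilityMeasure π' := hπ'.isProbabilityMeasure
    have h1 := hmin (a := ⟨π', hp⟩) hπ'
    rw [← hgint _ hπ, ← hgint _ hπ']
    exact h1
  refine ⟨π, hπ, hopt, (π : Measure (E × E)).support, ?_, ?_, ?_, ?_⟩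
  · refine hKK.of_isClosed_subset Measure.isClosed_support ?_
    apply Measure.support_subset_of_isClosed hKK.isClosed
    rw [mem_ae_iff]
    exact hπ.compl_null hK.measurableSet hμ hν
  · apply Measure.support_subset_of_isClosed hKK.isClosed
    rw [mem_ae_iff]
    exact hπ.compl_null hK.measurableSet hμ hν
  · exact Measure.measure_compl_support
  · intro n p σ hp
    exact Pool.Agent.Lib.MP_c487e3_gt.H93.cyclic_monotone (c := fun p : E × E => c p.1 p.2) hc
      (integrable_of_compact hc hKK _ (hπ.compl_null hK.measurableSet hμ hν))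
      (fun π' h1 h2 _ => hopt π' ⟨h1.trans hπ.1, h2.trans hπ.2⟩) p hp σ

end MP_c487e3_gt
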